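import Mathlib

/-!
Exact covering of a finite elementary abelian 2-group by a subgroup (squaring lemma).
-/

namespace COV

open Finset

variable {G : Type*} [AddCommGroup G] [Fintype G] [DecidableEq G]

/-- points not reached from `C` by an element of `S` -/
def unc (S C : Finset G) : Finset G := univ.filter (fun x => ∀ c ∈ C, x + c ∉ S)

theorem mem_unc {S C : Finset G} {x : G} : x ∈ unc S C ↔ ∀ c ∈ C, x + c ∉ S := by
  simp [unc]

/-- `C` closed under addition with zero -/
structure IsSub (C : Finset G) : Prop where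
  zero : (0 : G) ∈ C
  add : ∀ a ∈ C, ∀ b ∈ C, a + b ∈ C

theorem unc_inv {S C : Finset G} (hC : IsSub C) {x y : G} (hx : x ∈ unc S C) (hy : y ∈ C) :
    x + y ∈ unc S C := by
  rw [mem_unc] at hx ⊢
  intro c hc
  rw [add_assoc]
  exact hx _ (hC.add _ hy _ hc)

theorem sum_card (U : Finset G) :
    ∑ y : G, (U.filter (fun x => x + y ∈ U)).card = U.card * U.card := by
  have h1 : ∀ y : G, (U.filter (fun x => x + y ∈ U)).card = ∑ x ∈ U, if x + y ∈ U then 1 else 0 := by
    intro y
    rw [Finset.card_filter]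
  simp_rw [h1]
  rw [Finset.sum_comm]
  have h2 : ∀ x ∈ U, (∑ y : G, if x + y ∈ U then 1 else 0) = U.card := by
    intro x _
    rw [← Finset.card_filter]
    refine Finset.card_bij (fun y _ => x + y) ?_ ?_ ?_
    · intro a ha
      simpa using ha
    · intro a _ b _ h
      exact add_left_cancel h
    · intro b hb
      exact ⟨b - x, by simpa using hb, by abel⟩
  rw [Finset.sum_congr rfl h2]
  simp

theorem exists_y {S C : Finset G} (hC : IsSub C) (hlt : C.card < Fintype.card G) :
    ∃ y : G, y ∉ C ∧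
      (((unc S C).filter (fun x => x + y ∈ unc S C)).card : ℝ)
        ≤ ((unc S C).card : ℝ) ^ 2 / (Fintype.card G : ℝ) := by
  classical
  by_contra hcon
  push Not at hcon
  set U := unc S C with hU
  have hN : (0 : ℝ) < (Fintype.card G : ℝ) := by
    have : 0 < Fintype.card G := Fintype.card_pos
    exact_mod_cast this
  have hsum := sum_card U
  have hsplit : ∑ y : G, (U.filter (fun x => x + y ∈ U)).card
      = ∑ y ∈ C, (U.filter (fun x => x + y ∈ U)).card
        + ∑ y ∈ Cᶜ, (U.filter (fun x => x + y ∈ U)).card := by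
    rw [Finset.sum_add_sum_compl]
  have hinC : ∑ y ∈ C, (U.filter (fun x => x + y ∈ U)).card = C.card * U.card := by
    rw [Finset.sum_congr rfl (g := fun _ => U.card)]
    · simp
    · intro y hy
      congr 1
      apply Finset.filter_true_of_mem
      intro x hx
      exact unc_inv hC hx hy
  have hout : ((Cᶜ).card : ℝ) * ((U.card : ℝ) ^ 2 / (Fintype.card G : ℝ))
      < ∑ y ∈ Cᶜ, ((U.filter (fun x => x + y ∈ U)).card : ℝ) := by
    rw [← nsmul_eq_mul, ← Finset.sum_const]
    apply Finset.sum_lt_sum_of_nonempty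
    · rw [← Finset.card_pos, Finset.card_compl]
      omega
    · intro y hy
      exact hcon y (by simpa using hy)
  have hcc : ((Cᶜ).card : ℝ) = (Fintype.card G : ℝ) - C.card := by
    rw [Finset.card_compl, Nat.cast_sub hlt.le]
  have e1 : (U.card : ℝ) * U.card = (C.card : ℝ) * U.card
      + ∑ y ∈ Cᶜ, ((U.filter (fun x => x + y ∈ U)).card : ℝ) := by
    have := hsum.symm.trans (hsplit.trans (by rw [hinC]))
    exact_mod_cast this
  have hUN : (U.card : ℝ) ≤ (Fintype.card G : ℝ) := by
    exact_mod_cast Finset.card_le_univ U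
  have hCn : (0 : ℝ) ≤ (C.card : ℝ) := by positivity
  have hUn : (0 : ℝ) ≤ (U.card : ℝ) := by positivity
  rw [hcc] at hout
  have h3 : ((Fintype.card G : ℝ) - C.card) * ((U.card : ℝ) ^ 2 / (Fintype.card G : ℝ))
      = (U.card : ℝ) ^ 2 - C.card * (U.card : ℝ) ^ 2 / (Fintype.card G : ℝ) := by
    field_simp
  rw [h3] at hout
  have h4 : (C.card : ℝ) * (U.card : ℝ) ^ 2 / (Fintype.card G : ℝ) ≤ C.card * U.card := by
    rw [div_le_iff₀ hN]
    have : (U.card : ℝ) ^ 2 ≤ U.card * (Fintype.card G : ℝ) := by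
      rw [sq]
      exact mul_le_mul_of_nonneg_left hUN hUn
    calc (C.card : ℝ) * (U.card : ℝ) ^ 2 ≤ C.card * (U.card * (Fintype.card G : ℝ)) :=
          mul_le_mul_of_nonneg_left this hCn
      _ = C.card * U.card * (Fintype.card G : ℝ) := by ring
  nlinarith

/-- adding one generator -/
theorem step {S C : Finset G} (h2 : ∀ x : G, x + x = 0) (hC : IsSub C)
    (hlt : C.card < Fintype.card G) :
    ∃ C' : Finset G, IsSub C' ∧ C'.card = 2 * C.card ∧
      ((unc S C').card : ℝ) ≤ ((unc S C).card : ℝ) ^ 2 / (Fintype.card G : ℝ) := by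
  classical
  obtain ⟨y, hy, hle⟩ := exists_y (S := S) hC hlt
  refine ⟨C ∪ C.image (fun c => y + c), ⟨?_, ?_⟩, ?_, ?_⟩
  · simp [hC.zero]
  · intro a ha b hb
    simp only [Finset.mem_union, Finset.mem_image] at ha hb ⊢
    rcases ha with ha | ⟨c, hc, rfl⟩ <;> rcases hb with hb | ⟨d, hd, rfl⟩
    · exact Or.inl (hC.add _ ha _ hb)
    · exact Or.inr ⟨a + d, hC.add _ ha _ hd, by abel⟩
    · exact Or.inr ⟨c + b, hC.add _ hc _ hb, by abel⟩
    · left
      have : y + c + (y + d) = c + d := by
        have := h2 y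
        calc y + c + (y + d) = (y + y) + (c + d) := by abel
          _ = c + d := by rw [this, zero_add]
      rw [this]
      exact hC.add _ hc _ hd
  · rw [Finset.card_union_of_disjoint]
    · rw [Finset.card_image_of_injective _ (add_right_injective y)]
      ring
    · rw [Finset.disjoint_left]
      intro a ha hb
      simp only [Finset.mem_image] at hb
      obtain ⟨c, hc, rfl⟩ := hb
      apply hy
      have : y = (y + c) + c := by
        rw [add_assoc, h2 c, add_zero]
      rw [this]
      exact hC.add _ ha _ hc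
  · refine le_trans ?_ hle
    have : unc S (C ∪ C.image (fun c => y + c)) ⊆ (unc S C).filter (fun x => x + y ∈ unc S C) := by
      intro x hx
      rw [mem_unc] at hx
      rw [Finset.mem_filter, mem_unc, mem_unc]
      refine ⟨fun c hc => hx c (by simp [hc]), fun c hc => ?_⟩
      rw [add_assoc]
      apply hx
      simp only [Finset.mem_union, Finset.mem_image]
      exact Or.inr ⟨c, hc, rfl⟩
    exact_mod_cast Finset.card_le_card this

theorem iter (h2 : ∀ x : G, x + x = 0) (S : Finset G) :
    ∀ k : ℕ, 2 ^ k ≤ Fintype.card G → ∃ C : Finset G, IsSub C ∧ C.card = 2 ^ k ∧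
      ((unc S C).card : ℝ) ≤ (Fintype.card G : ℝ) *
        (1 - (S.card : ℝ) / (Fintype.card G : ℝ)) ^ (2 ^ k) := by
  classical
  have hN : (0 : ℝ) < (Fintype.card G : ℝ) := by
    have : 0 < Fintype.card G := Fintype.card_pos
    exact_mod_cast this
  intro k
  induction k with
  | zero =>
    intro _
    refine ⟨{0}, ⟨by simp, ?_⟩, by simp, ?_⟩
    · intro a ha b hb
      simp only [Finset.mem_singleton] at *
      simp [ha, hb]
    · have : unc S ({0} : Finset G) = Sᶜ := by
        ext x
        simp [mem_unc]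
      rw [this, Finset.card_compl, Nat.cast_sub (Finset.card_le_univ S)]
      simp only [pow_zero, pow_one]
      have : (Fintype.card G : ℝ) * (1 - (S.card : ℝ) / (Fintype.card G : ℝ))
          = Fintype.card G - S.card := by
        field_simp
      rw [this]
  | succ k ih =>
    intro hk
    have hk' : 2 ^ k ≤ Fintype.card G := le_trans (Nat.pow_le_pow_right (by norm_num) (Nat.le_succ k)) hk
    obtain ⟨C, hC, hcard, hU⟩ := ih hk'
    have hlt : C.card < Fintype.card G := by
      rw [hcard]
      have : 2 ^ (k + 1) = 2 * 2 ^ k := by ring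
      have : 0 < 2 ^ k := by positivity
      omega
    obtain ⟨C', hC', hcard', hU'⟩ := step (S := S) h2 hC hlt
    refine ⟨C', hC', by rw [hcard', hcard]; ring, le_trans hU' ?_⟩
    rw [div_le_iff₀ hN]
    have hb : ((unc S C).card : ℝ) ^ 2 ≤ ((Fintype.card G : ℝ) *
        (1 - (S.card : ℝ) / (Fintype.card G : ℝ)) ^ (2 ^ k)) ^ 2 :=
      pow_le_pow_left₀ (by positivity) hU 2
    refine le_trans hb (le_of_eq ?_)
    have : (2 : ℕ) ^ (k + 1) = 2 ^ k * 2 := by ring
    rw [this, pow_mul]
    ring

/-- exact covering: every coset of some subgroup of order `2^k` meets `S` -/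
theorem exact_cover (h2 : ∀ x : G, x + x = 0) (S : Finset G) (k : ℕ)
    (hk : 2 ^ k ≤ Fintype.card G)
    (hq : (Fintype.card G : ℝ) * (1 - (S.card : ℝ) / (Fintype.card G : ℝ)) ^ (2 ^ k) < 2 ^ k) :
    ∃ C : Finset G, IsSub C ∧ C.card = 2 ^ k ∧ ∀ x : G, ∃ c ∈ C, x + c ∈ S := by
  classical
  obtain ⟨C, hC, hcard, hU⟩ := iter h2 S k hk
  refine ⟨C, hC, hcard, ?_⟩
  intro x
  by_contra hcon
  push Not at hcon
  have hx : x ∈ unc S C := mem_unc.2 hcon
  have hsub : C.image (fun c => x + c) ⊆ unc S C := by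
    intro z hz
    rw [Finset.mem_image] at hz
    obtain ⟨c, hc, rfl⟩ := hz
    exact unc_inv hC hx hc
  have h1 := Finset.card_le_card hsub
  rw [Finset.card_image_of_injective _ (add_right_injective x), hcard] at h1
  have h3 : ((2 : ℝ) ^ k) ≤ ((unc S C).card : ℝ) := by exact_mod_cast h1
  linarith

end COV
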