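import Mathlib
import Pool.Agent.Lib_helper53.COV.Sq

/-!
Blow-up of an exact covering of `F_2^m` to a linear covering code of length `m * q`.
-/

namespace COV

open Finset

/-- the words of weight exactly `r` -/
def sph (m r : ℕ) : Finset (Fin m → ZMod 2) := univ.filter (fun x => hammingNorm x = r)

theorem zmod2_ne_zero {a : ZMod 2} (h : a ≠ 0) : a = 1 := by
  revert h
  revert a
  decide

theorem add_self2 {ι : Type*} (x : ι → ZMod 2) : x + x = 0 := by
  funext i
  simp only [Pi.add_apply, Pi.zero_apply]
  have : ∀ a : ZMod 2, a + a = 0 := by decide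
  exact this _

theorem add_selfF {F : Type*} [Field F] [Algebra (ZMod 2) F] (a : F) : a + a = 0 := by
  have h : ((1 : ZMod 2) + 1) • a = a + a := by rw [add_smul, one_smul]
  have h0 : (1 : ZMod 2) + 1 = 0 := by decide
  rw [← h, h0, zero_smul]

theorem card_sph (m r : ℕ) : (sph m r).card = m.choose r := by
  classical
  have h : (Finset.powersetCard r (univ : Finset (Fin m))).card = m.choose r := by
    rw [Finset.card_powersetCard]; simp
  rw [← h]
  refine Finset.card_nbij' (fun x => univ.filter (fun i => x i ≠ 0))
    (fun Q i => if i ∈ Q then 1 else 0) ?_ ?_ ?_ ?_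
  · intro x hx
    have hx' : hammingNorm x = r := by simpa [sph] using hx
    simp only [Finset.mem_coe, Finset.mem_powersetCard, Finset.subset_univ, true_and]
    exact hx'
  · intro Q hQ
    simp only [Finset.mem_coe, Finset.mem_powersetCard, Finset.subset_univ, true_and] at hQ
    have : hammingNorm (fun i => if i ∈ Q then (1 : ZMod 2) else 0) = r := by
      rw [← hQ, hammingNorm]
      congr 1
      ext i
      simp
    simpa [sph] using this
  · intro x _
    funext i
    by_cases hi : x i = 0
    · simp [hi]
    · have := zmod2_ne_zero hi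
      simp [this]
  · intro Q _
    ext i
    simp

set_option linter.unusedSectionVars false

variable {F : Type*} [Field F] [Fintype F] [DecidableEq F] [Algebra (ZMod 2) F]

/-- block parities -/
def par (F : Type*) [Fintype F] (m : ℕ) : ((Fin m × F) → ZMod 2) →ₗ[ZMod 2] (Fin m → ZMod 2) where
  toFun x := fun j => ∑ ξ : F, x (j, ξ)
  map_add' x y := by
    funext j
    simp [Finset.sum_add_distrib]
  map_smul' c x := by
    funext j
    simp [Finset.mul_sum]

/-- weighted sums -/
def wts {m : ℕ} (β : Fin m → F) (r : ℕ) : ((Fin m × F) → ZMod 2) →ₗ[ZMod 2] (Fin r → F) where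
  toFun x := fun i => ∑ p : Fin m × F, x p • (β p.1 ^ (i : ℕ) * p.2)
  map_add' x y := by
    funext i
    simp [add_smul, Finset.sum_add_distrib]
  map_smul' c x := by
    funext i
    simp [mul_smul, Finset.smul_sum]

theorem vander {r : ℕ} (v : Fin r → F) (hv : Function.Injective v) (w : Fin r → F) :
    ∃ ξ : Fin r → F, ∀ i : Fin r, ∑ l : Fin r, v l ^ (i : ℕ) * ξ l = w i := by
  classical
  set A : Matrix (Fin r) (Fin r) F := (Matrix.vandermonde v).transpose with hA
  have hdet : IsUnit A.det := by
    rw [hA, Matrix.det_transpose]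
    exact (Matrix.det_vandermonde_ne_zero_iff.2 hv).isUnit
  refine ⟨A⁻¹.mulVec w, fun i => ?_⟩
  have h1 : A.mulVec (A⁻¹.mulVec w) = w := by
    rw [Matrix.mulVec_mulVec, Matrix.mul_nonsing_inv _ hdet, Matrix.one_mulVec]
  have h2 := congrFun h1 i
  simpa [Matrix.mulVec, dotProduct, hA, Matrix.transpose_apply, Matrix.vandermonde_apply] using h2

theorem star {m r : ℕ} (β : Fin m → F) (hβ : Function.Injective β)
    {C : Finset (Fin m → ZMod 2)} (hC : ∀ x, ∃ c ∈ C, x + c ∈ sph m r)
    (σ : Fin m → ZMod 2) (w : Fin r → F) :
    ∃ x : (Fin m × F) → ZMod 2, hammingNorm x = r ∧ par F m x + σ ∈ C ∧ wts β r x = w := by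
  classical
  obtain ⟨c, hc, hz⟩ := hC σ
  set z := σ + c with hzdef
  set Q : Finset (Fin m) := univ.filter (fun i => z i ≠ 0) with hQ
  have hQc : Q.card = r := by
    simpa [sph, hammingNorm] using hz
  set e := Q.orderEmbOfFin hQc with he
  have heinj : Function.Injective e := e.injective
  have hmem : ∀ j, j ∈ Q ↔ ∃ l, e l = j := by
    intro j
    have := Finset.range_orderEmbOfFin Q hQc
    constructor
    · intro hj
      have : j ∈ Set.range e := by rw [he, this]; exact hj
      exact this
    · rintro ⟨l, rfl⟩
      exact Finset.orderEmbOfFin_mem Q hQc l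
  obtain ⟨ξ, hξ⟩ := vander (fun l => β (e l)) (fun a b h => heinj (hβ h)) w
  set g : Fin r → Fin m × F := fun l => (e l, ξ l) with hg
  have hginj : Function.Injective g := by
    intro a b h
    exact heinj (congrArg Prod.fst h)
  set T : Finset (Fin m × F) := univ.image g with hT
  have hTc : T.card = r := by
    rw [hT, Finset.card_image_of_injective _ hginj]; simp
  refine ⟨fun p => if p ∈ T then 1 else 0, ?_, ?_, ?_⟩
  · rw [hammingNorm]
    rw [← hTc]
    congr 1
    ext p
    simp
  · have hp : par F m (fun p => if p ∈ T then 1 else 0) = z := by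
      funext j
      show ∑ x : F, (if (j, x) ∈ T then (1 : ZMod 2) else 0) = z j
      by_cases hj : j ∈ Q
      · obtain ⟨l, hl⟩ := (hmem j).1 hj
        have hzj : z j = 1 := zmod2_ne_zero (by simpa [hQ] using hj)
        rw [hzj]
        rw [Finset.sum_eq_single (ξ l)]
        · have : (j, ξ l) ∈ T := by
            rw [hT, Finset.mem_image]
            exact ⟨l, Finset.mem_univ _, by simp [hg, hl]⟩
          simp [this]
        · intro b _ hb
          have : (j, b) ∉ T := by
            rw [hT, Finset.mem_image]
            rintro ⟨l', _, h'⟩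
            have h1 : e l' = j := congrArg Prod.fst h'
            have h2 : ξ l' = b := congrArg Prod.snd h'
            have : l' = l := heinj (by rw [h1, hl])
            rw [this] at h2
            exact hb h2.symm
          simp [this]
        · intro h
          exact absurd (Finset.mem_univ _) h
      · have hzj : z j = 0 := by
          by_contra h
          exact hj (by simp [hQ, h])
        rw [hzj]
        apply Finset.sum_eq_zero
        intro b _
        have : (j, b) ∉ T := by
          rw [hT, Finset.mem_image]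
          rintro ⟨l', _, h'⟩
          have h1 : e l' = j := congrArg Prod.fst h'
          exact hj ((hmem j).2 ⟨l', h1⟩)
        simp [this]
    rw [hp, hzdef]
    have : σ + c + σ = c := by
      calc σ + c + σ = (σ + σ) + c := by abel
        _ = c := by rw [add_self2, zero_add]
    rw [this]
    exact hc
  · funext i
    show ∑ p : Fin m × F, (if p ∈ T then (1 : ZMod 2) else 0) • (β p.1 ^ (i : ℕ) * p.2) = w i
    have h1 : ∑ p : Fin m × F, (if p ∈ T then (1 : ZMod 2) else 0) • (β p.1 ^ (i : ℕ) * p.2)
        = ∑ p ∈ T, (β p.1 ^ (i : ℕ) * p.2) := by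
      rw [← Finset.sum_filter_add_sum_filter_not univ (fun p => p ∈ T)]
      have h2 : ∑ x ∈ univ.filter (fun p => p ∉ T),
          (if x ∈ T then (1 : ZMod 2) else 0) • (β x.1 ^ (i : ℕ) * x.2) = 0 := by
        apply Finset.sum_eq_zero
        intro x hx
        have : x ∉ T := by simpa using hx
        simp [this]
      rw [h2, add_zero]
      have h3 : univ.filter (fun p => p ∈ T) = T := by
        ext p; simp
      rw [h3]
      apply Finset.sum_congr rfl
      intro x hx
      simp [hx]
    rw [h1, hT, Finset.sum_image (fun a _ b _ h => hginj h)]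
    exact hξ i

/-- the code -/
def code {m : ℕ} (β : Fin m → F) (r : ℕ) (C : Submodule (ZMod 2) (Fin m → ZMod 2)) :
    Submodule (ZMod 2) ((Fin m × F) → ZMod 2) :=
  Submodule.comap (par F m) C ⊓ LinearMap.ker (wts β r)

/-- a finset closed under addition is a submodule -/
def toSub {m : ℕ} (C : Finset (Fin m → ZMod 2)) (hC : IsSub C) :
    Submodule (ZMod 2) (Fin m → ZMod 2) where
  carrier := {x | x ∈ C}
  add_mem' := fun {a b} ha hb => hC.add a ha b hb
  zero_mem' := hC.zero
  smul_mem' := by
    intro c x hx
    have : ∀ a : ZMod 2, a = 0 ∨ a = 1 := by decide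
    rcases this c with h | h
    · rw [h, zero_smul]; exact hC.zero
    · rw [h, one_smul]; exact hx

theorem mem_toSub {m : ℕ} {C : Finset (Fin m → ZMod 2)} {hC : IsSub C} {x : Fin m → ZMod 2} :
    x ∈ toSub C hC ↔ x ∈ C := Iff.rfl

theorem code_cov {m r : ℕ} (β : Fin m → F) (hβ : Function.Injective β)
    {C : Finset (Fin m → ZMod 2)} (hs : IsSub C) (hC : ∀ x, ∃ c ∈ C, x + c ∈ sph m r)
    (x : (Fin m × F) → ZMod 2) :
    ∃ v ∈ code β r (toSub C hs), hammingDist x v ≤ r := by
  classical
  obtain ⟨y, hy1, hy2, hy3⟩ := star β hβ hC (par F m x) (wts β r x)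
  refine ⟨x + y, ?_, ?_⟩
  · rw [code, Submodule.mem_inf, Submodule.mem_comap, LinearMap.mem_ker, map_add, map_add, hy3]
    refine ⟨?_, ?_⟩
    · rw [mem_toSub, add_comm]
      exact hy2
    · funext i
      simp only [Pi.add_apply, Pi.zero_apply]
      exact add_selfF _
  · rw [hammingDist_eq_hammingNorm]
    have : -x + (x + y) = y := by abel
    rw [this, hy1]

theorem code_card {m r : ℕ} (β : Fin m → F) (hβ : Function.Injective β)
    {C : Finset (Fin m → ZMod 2)} (hs : IsSub C) (hC : ∀ x, ∃ c ∈ C, x + c ∈ sph m r) :
    Nat.card (code β r (toSub C hs)) * (2 ^ m * Fintype.card F ^ r)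
      = 2 ^ (m * Fintype.card F) * C.card := by
  classical
  set V : Finset ((Fin m × F) → ZMod 2) :=
    univ.filter (fun z => par F m z ∈ C ∧ wts β r z = 0) with hV
  have hcardV : Nat.card (code β r (toSub C hs)) = V.card := by
    have h1 : Nat.card (code β r (toSub C hs)) = Nat.card {z : (Fin m × F) → ZMod 2 // z ∈ V} := by
      apply Nat.card_congr
      apply Equiv.subtypeEquivRight
      intro z
      rw [code, Submodule.mem_inf, Submodule.mem_comap, LinearMap.mem_ker, mem_toSub, hV]
      simp
    rw [h1, Nat.card_eq_fintype_card, Fintype.card_coe]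
  have hfib : ∀ s : (Fin m → ZMod 2) × (Fin r → F),
      (univ.filter (fun z : (Fin m × F) → ZMod 2 => par F m z + s.1 ∈ C ∧ wts β r z = s.2)).card
        = V.card := by
    rintro ⟨σ, w⟩
    obtain ⟨y, -, hy2, hy3⟩ := star β hβ hC σ w
    symm
    refine Finset.card_bij (fun z _ => z + y) ?_ ?_ ?_
    · intro z hz
      rw [hV, Finset.mem_filter] at hz
      rw [Finset.mem_filter]
      refine ⟨Finset.mem_univ _, ?_, ?_⟩
      · rw [map_add, add_assoc]
        exact hs.add _ hz.2.1 _ hy2
      · rw [map_add, hz.2.2, zero_add, hy3]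
    · intro a _ b _ h
      exact add_right_cancel h
    · intro z hz
      rw [Finset.mem_filter] at hz
      refine ⟨z + y, ?_, ?_⟩
      · rw [hV, Finset.mem_filter]
        refine ⟨Finset.mem_univ _, ?_, ?_⟩
        · rw [map_add]
          have : par F m z + par F m y = (par F m z + σ) + (par F m y + σ) := by
            calc par F m z + par F m y = par F m z + par F m y + 0 := by rw [add_zero]
              _ = par F m z + par F m y + (σ + σ) := by rw [add_self2]
              _ = _ := by abel
          rw [this]
          exact hs.add _ hz.2.1 _ hy2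
        · rw [map_add, hz.2.2, hy3]
          funext i
          simp only [Pi.add_apply, Pi.zero_apply]
          exact add_selfF _
      · rw [add_assoc, add_self2, add_zero]
  have hsum : ∑ s : (Fin m → ZMod 2) × (Fin r → F),
      (univ.filter (fun z : (Fin m × F) → ZMod 2 => par F m z + s.1 ∈ C ∧ wts β r z = s.2)).card
      = ∑ z : (Fin m × F) → ZMod 2,
        (univ.filter (fun s : (Fin m → ZMod 2) × (Fin r → F) =>
          par F m z + s.1 ∈ C ∧ wts β r z = s.2)).card := by
    simp_rw [Finset.card_filter]
    rw [Finset.sum_comm]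
  have hin : ∀ z : (Fin m × F) → ZMod 2,
        (univ.filter (fun s : (Fin m → ZMod 2) × (Fin r → F) =>
          par F m z + s.1 ∈ C ∧ wts β r z = s.2)).card = C.card := by
    intro z
    symm
    refine Finset.card_bij (fun c _ => (par F m z + c, wts β r z)) ?_ ?_ ?_
    · intro c hc
      rw [Finset.mem_filter]
      refine ⟨Finset.mem_univ _, ?_, rfl⟩
      simp only
      rw [← add_assoc, add_self2, zero_add]
      exact hc
    · intro a _ b _ h
      exact add_left_cancel (congrArg Prod.fst h)
    · rintro ⟨σ, w⟩ hs'
      rw [Finset.mem_filter] at hs'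
      refine ⟨par F m z + σ, hs'.2.1, ?_⟩
      rw [← add_assoc, add_self2, zero_add, hs'.2.2]
  rw [Finset.sum_congr rfl (fun s _ => hfib s), Finset.sum_congr rfl (fun z _ => hin z)] at hsum
  rw [hcardV]
  simp only [Finset.sum_const, Finset.card_univ, smul_eq_mul, Fintype.card_prod,
    Fintype.card_fun, ZMod.card, Fintype.card_fin] at hsum
  rw [mul_comm, hsum]

end COV
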