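import Mathlib
import Pool.Agent.Lib_helper53.COV.Blow

/-!
Linear covering codes of length `m * 2 ^ a`.
-/

namespace COV

open Finset

/-- size of the Hamming ball -/
noncomputable def ballCard (n r : ℕ) : ℕ :=
  (univ.filter (fun x : Fin n → ZMod 2 => hammingNorm x ≤ r)).card

theorem ballCard_eq (n r : ℕ) : ballCard n r = ∑ i ∈ range (r + 1), n.choose i := by
  classical
  rw [ballCard]
  have h : (univ.filter (fun x : Fin n → ZMod 2 => hammingNorm x ≤ r))
      = (range (r + 1)).biUnion (fun i => sph n i) := by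
    ext x
    simp only [Finset.mem_filter, Finset.mem_univ, true_and, Finset.mem_biUnion, Finset.mem_range,
      sph]
    constructor
    · intro h
      exact ⟨hammingNorm x, by omega, rfl⟩
    · rintro ⟨i, hi, rfl⟩
      omega
  rw [h, Finset.card_biUnion]
  · exact Finset.sum_congr rfl (fun i _ => card_sph n i)
  · intro i _ j _ hij
    rw [Function.onFun, Finset.disjoint_left]
    intro x hx hy
    simp only [sph, Finset.mem_filter, Finset.mem_univ, true_and] at hx hy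
    exact hij (hx.symm.trans hy)

theorem ballCard_le (n r : ℕ) : ballCard n r ≤ (n + r).choose r := by
  rw [ballCard_eq, Nat.add_choose_eq, Finset.Nat.sum_antidiagonal_eq_sum_range_succ_mk]
  apply Finset.sum_le_sum
  intro i hi
  have hi' : i ≤ r := by
    have := Finset.mem_range.1 hi
    omega
  have : 1 ≤ r.choose (r - i) := Nat.choose_pos (by omega)
  calc n.choose i = n.choose i * 1 := by ring
    _ ≤ n.choose i * r.choose (r - i) := Nat.mul_le_mul_left _ this

theorem ballCard_le_real (n r : ℕ) :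
    (ballCard n r : ℝ) ≤ ((n : ℝ) + r) ^ r / (r.factorial : ℝ) := by
  have h1 : (ballCard n r : ℝ) ≤ ((n + r).choose r : ℝ) := by exact_mod_cast ballCard_le n r
  have h2 := Nat.choose_le_pow_div (α := ℝ) r (n + r)
  push_cast at h2
  exact h1.trans h2

theorem hd_comp {ι κ : Type*} [Fintype ι] [Fintype κ] [DecidableEq ι] [DecidableEq κ] (e : κ ≃ ι)
    (x y : ι → ZMod 2) : hammingDist (x ∘ e) (y ∘ e) = hammingDist x y := by
  classical
  rw [hammingDist, hammingDist]
  refine Finset.card_bij (fun k _ => e k) ?_ ?_ ?_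
  · intro k hk
    simpa using hk
  · intro a _ b _ h
    exact e.injective h
  · intro b hb
    refine ⟨e.symm b, ?_, by simp⟩
    simpa using hb

theorem transport {n : ℕ} {κ : Type*} [Fintype κ] [DecidableEq κ] (e : κ ≃ Fin n) (r : ℕ)
    (W : Submodule (ZMod 2) (κ → ZMod 2)) (hW : ∀ x : κ → ZMod 2, ∃ v ∈ W, hammingDist x v ≤ r) :
    ∃ V : Submodule (ZMod 2) (Fin n → ZMod 2),
      (∀ x : Fin n → ZMod 2, ∃ v ∈ V, hammingDist x v ≤ r) ∧ Nat.card V = Nat.card W := by
  classical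
  refine ⟨W.comap (LinearMap.funLeft (ZMod 2) (ZMod 2) e), ?_, ?_⟩
  · intro x
    obtain ⟨v, hv, hd⟩ := hW (x ∘ e)
    refine ⟨v ∘ e.symm, ?_, ?_⟩
    · rw [Submodule.mem_comap]
      have : LinearMap.funLeft (ZMod 2) (ZMod 2) e (v ∘ e.symm) = v := by
        funext k
        simp [LinearMap.funLeft_apply]
      rw [this]
      exact hv
    · have := hd_comp e x (v ∘ e.symm)
      rw [← this]
      have h2 : (v ∘ e.symm) ∘ e = v := by
        funext k
        simp
      rw [h2]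
      exact hd
  · apply Nat.card_congr
    refine ⟨fun v => ⟨v.1 ∘ e, v.2⟩, fun w => ⟨w.1 ∘ e.symm, ?_⟩, ?_, ?_⟩
    · rw [Submodule.mem_comap]
      have : LinearMap.funLeft (ZMod 2) (ZMod 2) e (w.1 ∘ e.symm) = w.1 := by
        funext k
        simp [LinearMap.funLeft_apply]
      rw [this]
      exact w.2
    · intro v
      apply Subtype.ext
      funext k
      simp
    · intro w
      apply Subtype.ext
      funext k
      simp

theorem finite_bound (m r k a : ℕ) (ha : a ≠ 0) (hm : m ≤ 2 ^ a) (hk : k ≤ m)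
    (hq : (2 : ℝ) ^ m * (1 - (m.choose r : ℝ) / 2 ^ m) ^ (2 ^ k) < 2 ^ k) :
    ∃ V : Submodule (ZMod 2) (Fin (m * 2 ^ a) → ZMod 2),
      (∀ x : Fin (m * 2 ^ a) → ZMod 2, ∃ v ∈ V, hammingDist x v ≤ r) ∧
      Nat.card V * (2 ^ m * (2 ^ a) ^ r) = 2 ^ (m * 2 ^ a) * 2 ^ k := by
  classical
  haveI : Fact (Nat.Prime 2) := ⟨Nat.prime_two⟩
  haveI : Fintype (GaloisField 2 a) := Fintype.ofFinite _
  have hcard : Fintype.card (GaloisField 2 a) = 2 ^ a := by
    rw [← Nat.card_eq_fintype_card]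
    exact GaloisField.card 2 a ha
  have hcG : Fintype.card (Fin m → ZMod 2) = 2 ^ m := by simp
  obtain ⟨C, hC, hCc, hcov⟩ := exact_cover (G := Fin m → ZMod 2) add_self2 (sph m r) k
    (by rw [hcG]; exact Nat.pow_le_pow_right (by norm_num) hk)
    (by
      rw [hcG, card_sph]
      push_cast
      exact hq)
  obtain ⟨β⟩ : Nonempty (Fin m ↪ GaloisField 2 a) := by
    apply Function.Embedding.nonempty_of_card_le
    rw [hcard, Fintype.card_fin]
    exact hm
  have h1 := code_cov (F := GaloisField 2 a) β β.injective hC hcov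
  have h2 := code_card (F := GaloisField 2 a) β β.injective hC hcov
  have hce : Fintype.card (Fin m × GaloisField 2 a) = m * 2 ^ a := by
    rw [Fintype.card_prod, hcard, Fintype.card_fin]
  obtain ⟨V, hV1, hV2⟩ := transport (Fintype.equivFinOfCardEq hce) r _ h1
  refine ⟨V, hV1, ?_⟩
  rw [hV2]
  rw [hcard, hCc] at h2
  exact h2

/-- density bound at length `m * 2 ^ a` -/
theorem density_bound (m r k a : ℕ) (ha : a ≠ 0) (hm : m ≤ 2 ^ a) (hk : k ≤ m)
    (hq : (2 : ℝ) ^ m * (1 - (m.choose r : ℝ) / 2 ^ m) ^ (2 ^ k) < 2 ^ k) :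
    ∃ V : Submodule (ZMod 2) (Fin (m * 2 ^ a) → ZMod 2),
      (∀ x : Fin (m * 2 ^ a) → ZMod 2, ∃ v ∈ V, hammingDist x v ≤ r) ∧
      (Nat.card V : ℝ) * (ballCard (m * 2 ^ a) r : ℝ) / 2 ^ (m * 2 ^ a)
        ≤ ((m : ℝ) + r / 2 ^ a) ^ r / ((r.factorial : ℝ) * 2 ^ (m - k)) := by
  obtain ⟨V, hV1, hV2⟩ := finite_bound m r k a ha hm hk hq
  refine ⟨V, hV1, ?_⟩
  have hV3 : (Nat.card V : ℝ) * (2 ^ m * (2 ^ a) ^ r) = 2 ^ (m * 2 ^ a) * 2 ^ k := by
    exact_mod_cast hV2
  have hB := ballCard_le_real (m * 2 ^ a) r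
  have hfac : (0 : ℝ) < (r.factorial : ℝ) := by exact_mod_cast Nat.factorial_pos r
  have hq0 : (0 : ℝ) < 2 ^ a := by positivity
  have e1 : (Nat.card V : ℝ) = 2 ^ (m * 2 ^ a) * 2 ^ k / (2 ^ m * (2 ^ a) ^ r) := by
    rw [eq_div_iff (by positivity)]
    exact hV3
  have e2 : (2 : ℝ) ^ m = 2 ^ (m - k) * 2 ^ k := by
    rw [← pow_add]
    congr 1
    omega
  have e3 : (Nat.card V : ℝ) * (ballCard (m * 2 ^ a) r : ℝ) / 2 ^ (m * 2 ^ a)
      = (ballCard (m * 2 ^ a) r : ℝ) / (2 ^ (m - k) * (2 ^ a) ^ r) := by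
    rw [e1, e2]
    field_simp
  rw [e3]
  have e4 : ((m : ℝ) + r / 2 ^ a) ^ r / ((r.factorial : ℝ) * 2 ^ (m - k))
      = ((((m * 2 ^ a : ℕ) : ℝ) + r) ^ r / (r.factorial : ℝ)) / (2 ^ (m - k) * (2 ^ a) ^ r) := by
    have : (m : ℝ) + r / 2 ^ a = (((m * 2 ^ a : ℕ) : ℝ) + r) / 2 ^ a := by
      push_cast
      field_simp
    rw [this, div_pow]
    field_simp
  rw [e4]
  apply div_le_div_of_nonneg_right hB
  positivity

end COV
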