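import Mathlib
import Pool.Agent.Lib_helper53.COV.Fin

/-!
Choice of the parameters.
-/

namespace COV

open Finset

theorem log3_gt : (1 : ℝ) < Real.log 3 := by
  rw [Real.lt_log_iff_exp_lt (by norm_num)]
  have := Real.exp_one_lt_d9
  linarith

theorem desc_two (M : ℕ) : ∀ r : ℕ, 2 ^ r * M.descFactorial r ≤ (2 * M).descFactorial r := by
  intro r
  induction r with
  | zero => simp
  | succ k ih =>
    rw [Nat.descFactorial_succ, Nat.descFactorial_succ]
    have h1 : 2 * (M - k) ≤ 2 * M - k := by omega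
    calc 2 ^ (k + 1) * ((M - k) * M.descFactorial k)
        = (2 * (M - k)) * (2 ^ k * M.descFactorial k) := by ring
      _ ≤ (2 * M - k) * (2 * M).descFactorial k := Nat.mul_le_mul h1 ih

theorem choose_two (M r : ℕ) : 2 ^ r * M.choose r ≤ (2 * M).choose r := by
  have h := desc_two M r
  rw [Nat.descFactorial_eq_factorial_mul_choose, Nat.descFactorial_eq_factorial_mul_choose] at h
  have hf := Nat.factorial_pos r
  have : r.factorial * (2 ^ r * M.choose r) ≤ r.factorial * (2 * M).choose r := by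
    calc r.factorial * (2 ^ r * M.choose r) = 2 ^ r * (r.factorial * M.choose r) := by ring
      _ ≤ _ := h
  exact Nat.le_of_mul_le_mul_left this hf

/-- lower bound for the binomial coefficient -/
theorem choose_lower (M r : ℕ) (h : 2 * r ≤ M) (hr : 0 < r) :
    ((M : ℝ) / (2 * r)) ^ r ≤ (M.choose r : ℝ) := by
  have h1 := Nat.pow_sub_le_descFactorial M r
  rw [Nat.descFactorial_eq_factorial_mul_choose] at h1
  have h2 : (((M + 1 - r : ℕ) : ℝ)) ^ r ≤ (r.factorial : ℝ) * (M.choose r : ℝ) := by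
    exact_mod_cast h1
  have h3 : (M : ℝ) / 2 ≤ ((M + 1 - r : ℕ) : ℝ) := by
    rw [Nat.cast_sub (by omega)]
    push_cast
    have : (2 : ℝ) * r ≤ M := by exact_mod_cast h
    linarith
  have h4 : ((M : ℝ) / 2) ^ r ≤ (r.factorial : ℝ) * (M.choose r : ℝ) :=
    le_trans (pow_le_pow_left₀ (by positivity) h3 r) h2
  have h5 : (r.factorial : ℝ) ≤ (r : ℝ) ^ r := by
    exact_mod_cast Nat.factorial_le_pow r
  have h6 : ((M : ℝ) / 2) ^ r ≤ (r : ℝ) ^ r * (M.choose r : ℝ) :=
    le_trans h4 (mul_le_mul_of_nonneg_right h5 (by positivity))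
  have hr' : (0 : ℝ) < r := by exact_mod_cast hr
  have e : ((M : ℝ) / (2 * r)) ^ r = ((M : ℝ) / 2) ^ r / (r : ℝ) ^ r := by
    rw [← div_pow]
    congr 1
    field_simp
  rw [e, div_le_iff₀ (by positivity)]
  linarith

/-- the condition of the covering theorem -/
theorem cond_of {m s : ℕ} {c : ℝ} (hc : Real.exp 1 < c) (hs : s ≤ m)
    (hcm : c ≤ 2 ^ m) (h : 2 ^ s * Real.log c ≤ c) :
    (2 : ℝ) ^ m * (1 - c / 2 ^ m) ^ (2 ^ (m - s)) < 2 ^ (m - s) := by
  have hc0 : 0 < c := lt_trans (Real.exp_pos 1) hc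
  have hlog : 1 < Real.log c := (Real.lt_log_iff_exp_lt hc0).2 hc
  have e1 : (2 : ℝ) ^ m = 2 ^ s * 2 ^ (m - s) := by
    rw [← pow_add]; congr 1; omega
  have h1 : (1 - c / 2 ^ m) ≤ Real.exp (-(c / 2 ^ m)) := by
    have := Real.add_one_le_exp (-(c / 2 ^ m))
    linarith
  have h0 : 0 ≤ 1 - c / 2 ^ m := by
    have : c / 2 ^ m ≤ 1 := by
      rw [div_le_one (by positivity)]
      exact hcm
    linarith
  have h2 : (1 - c / 2 ^ m) ^ (2 ^ (m - s)) ≤ Real.exp (-(c / 2 ^ s)) := by
    refine le_trans (pow_le_pow_left₀ h0 h1 _) ?_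
    rw [← Real.exp_nat_mul]
    apply le_of_eq
    congr 1
    push_cast
    rw [e1]
    field_simp
  have h3 : Real.log (2 ^ s) < c / 2 ^ s := by
    have h4 : (2 : ℝ) ^ s < c := by
      have : (2 : ℝ) ^ s * 1 < 2 ^ s * Real.log c := mul_lt_mul_of_pos_left hlog (by positivity)
      linarith
    have h5 : Real.log (2 ^ s) < Real.log c := Real.log_lt_log (by positivity) h4
    have h6 : Real.log c ≤ c / 2 ^ s := by
      rw [le_div_iff₀ (by positivity)]
      linarith
    linarith
  have h7 : (2 : ℝ) ^ s < Real.exp (c / 2 ^ s) := by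
    rw [← Real.log_lt_iff_lt_exp (by positivity)]
    exact h3
  calc (2 : ℝ) ^ m * (1 - c / 2 ^ m) ^ (2 ^ (m - s)) ≤ 2 ^ m * Real.exp (-(c / 2 ^ s)) :=
        mul_le_mul_of_nonneg_left h2 (by positivity)
    _ = 2 ^ (m - s) * (2 ^ s * Real.exp (-(c / 2 ^ s))) := by rw [e1]; ring
    _ < 2 ^ (m - s) * 1 := by
        apply mul_lt_mul_of_pos_left _ (by positivity)
        rw [Real.exp_neg, ← div_eq_mul_inv, div_lt_one (Real.exp_pos _)]
        exact h7
    _ = 2 ^ (m - s) := by ring

/-- numerical estimate -/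
theorem numeric {r : ℕ} (hr : 3 ≤ r) {m : ℝ} {x L : ℝ} (hx : x = Real.log r) (hxL : x ≤ L)
    (hL : L ≤ x + 1) (hm1 : (r : ℝ) ^ 2 * L + 1 ≤ m) (hm2 : m ≤ 2 * ((r : ℝ) ^ 2 * L))
    {c : ℝ} (hc0 : 0 < c) (hc : c ≤ m ^ r / (r.factorial : ℝ)) (hlc : 0 ≤ Real.log c) :
    (m / (m - r)) ^ (r + 1) * Real.log c ≤ r * x + r * Real.log x + 83 * r := by
  have hr3 : (3 : ℝ) ≤ r := by exact_mod_cast hr
  have hr0 : (0 : ℝ) < r := by linarith
  have hx1 : 1 < x := by
    rw [hx]
    exact lt_of_lt_of_le log3_gt (Real.log_le_log (by norm_num) hr3)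
  have hx0 : 0 < x := by linarith
  have hmr : (r : ℝ) * (r + 1) * x ≤ 2 * (m - r) := by
    have h1 : (r : ℝ) ^ 2 * x ≤ (r : ℝ) ^ 2 * L := mul_le_mul_of_nonneg_left hxL (by positivity)
    have h2 : (r : ℝ) * x * 3 ≤ (r : ℝ) * x * r := mul_le_mul_of_nonneg_left hr3 (by positivity)
    have h3 : (r : ℝ) * 1 ≤ r * x := mul_le_mul_of_nonneg_left hx1.le hr0.le
    nlinarith
  have hmr0 : 0 < m - r := by
    have : 0 < (r : ℝ) * (r + 1) * x := by positivity
    linarith
  have hm0 : 0 < m := by linarith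
  -- the factor
  have hf1 : m / (m - r) ≤ Real.exp (r / (m - r)) := by
    have h := Real.add_one_le_exp ((r : ℝ) / (m - r))
    have : m / (m - r) = r / (m - r) + 1 := by field_simp; ring
    rw [this]
    exact h
  have hf2 : (m / (m - r)) ^ (r + 1) ≤ Real.exp (2 / x) := by
    refine le_trans (pow_le_pow_left₀ (by positivity) hf1 _) ?_
    rw [← Real.exp_nat_mul]
    apply Real.exp_le_exp.2
    push_cast
    rw [← mul_div_assoc, div_le_div_iff₀ hmr0 hx0]
    nlinarith
  have hf3 : Real.exp (2 / x) ≤ 1 + 16 / x := by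
    have h2x : 2 / x ≤ 2 := by
      rw [div_le_iff₀ hx0]; nlinarith
    have h2x0 : 0 ≤ 2 / x := by positivity
    have hem : 1 - 2 / x ≤ Real.exp (-(2 / x)) := by
      have := Real.add_one_le_exp (-(2 / x))
      linarith
    have h1 : Real.exp (2 / x) ≤ 1 + 2 / x * Real.exp (2 / x) := by
      have h := mul_le_mul_of_nonneg_right hem (Real.exp_pos (2 / x)).le
      rw [← Real.exp_add] at h
      simp at h
      linarith
    have h2 : Real.exp (2 / x) ≤ 8 := by
      have h3 : Real.exp (2 / x) ≤ Real.exp 2 := Real.exp_le_exp.2 h2x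
      have h4 : Real.exp 2 = Real.exp 1 * Real.exp 1 := by rw [← Real.exp_add]; norm_num
      have h5 := Real.exp_one_lt_d9
      have h6 := Real.exp_pos 1
      nlinarith
    have h3 : 2 / x * Real.exp (2 / x) ≤ 2 / x * 8 := mul_le_mul_of_nonneg_left h2 h2x0
    have h4 : 2 / x * 8 = 16 / x := by ring
    linarith
  -- the logarithm
  have hl1 : Real.log c ≤ r * (x + Real.log x + 3) := by
    have h1 : (r : ℝ) ^ r / (r.factorial : ℝ) ≤ Real.exp r :=
      Real.pow_div_factorial_le_exp (r : ℝ) hr0.le r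
    have h2 : m ^ r / (r.factorial : ℝ) = (m / r) ^ r * ((r : ℝ) ^ r / (r.factorial : ℝ)) := by
      rw [div_pow]
      field_simp
    have h3 : c ≤ (m / r) ^ r * Real.exp r := by
      refine le_trans hc ?_
      rw [h2]
      exact mul_le_mul_of_nonneg_left h1 (by positivity)
    have h4 : Real.log c ≤ Real.log ((m / r) ^ r * Real.exp r) := Real.log_le_log hc0 h3
    rw [Real.log_mul (by positivity) (Real.exp_pos _).ne', Real.log_pow, Real.log_exp] at h4
    have h5 : m / r ≤ 4 * r * x := by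
      rw [div_le_iff₀ hr0]
      have h6 : L ≤ 2 * x := by linarith
      have h7 : (r : ℝ) ^ 2 * L ≤ (r : ℝ) ^ 2 * (2 * x) := mul_le_mul_of_nonneg_left h6 (by positivity)
      nlinarith
    have h6 : Real.log (m / r) ≤ Real.log (4 * r * x) := Real.log_le_log (by positivity) h5
    rw [Real.log_mul (by positivity) hx0.ne', Real.log_mul (by norm_num) hr0.ne', ← hx] at h6
    have h7 : Real.log 4 ≤ 2 := by
      have : Real.log 4 = 2 * Real.log 2 := by
        rw [show (4 : ℝ) = 2 ^ 2 by norm_num, Real.log_pow]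
        norm_num
      have h8 := Real.log_two_lt_d9
      linarith
    have h8 : Real.log (m / r) ≤ 2 + x + Real.log x := by linarith
    have h9 : (r : ℝ) * Real.log (m / r) ≤ r * (2 + x + Real.log x) :=
      mul_le_mul_of_nonneg_left h8 hr0.le
    nlinarith
  have hlx0 : 0 ≤ Real.log x := Real.log_nonneg hx1.le
  have hlx : Real.log x ≤ x := by
    have := Real.log_le_sub_one_of_pos hx0
    linarith
  have hfac : (m / (m - r)) ^ (r + 1) ≤ 1 + 16 / x := le_trans hf2 hf3
  calc (m / (m - r)) ^ (r + 1) * Real.log c ≤ (1 + 16 / x) * Real.log c :=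
        mul_le_mul_of_nonneg_right hfac hlc
    _ ≤ (1 + 16 / x) * (r * (x + Real.log x + 3)) :=
        mul_le_mul_of_nonneg_left hl1 (by positivity)
    _ = r * (x + Real.log x + 3 + 16 + 16 * (Real.log x / x) + 48 * (1 / x)) := by
        field_simp
        ring
    _ ≤ r * (x + Real.log x + 83) := by
        apply mul_le_mul_of_nonneg_left _ hr0.le
        have h1 : Real.log x / x ≤ 1 := by
          rw [div_le_one hx0]; exact hlx
        have h2 : 1 / x ≤ 1 := by
          rw [div_le_one hx0]; exact hx1.le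
        linarith
    _ = r * x + r * Real.log x + 83 * r := by ring

end COV
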