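import Mathlib
import Pool.Agent.Lib_helper53.COV.Asy

namespace COV

open Finset Filter

theorem params (r : ℕ) (hr : 3 ≤ r) : ∃ m k : ℕ, k ≤ m ∧ 1 ≤ m ∧
    (2 : ℝ) ^ m * (1 - (m.choose r : ℝ) / 2 ^ m) ^ (2 ^ k) < 2 ^ k ∧
    (m : ℝ) ^ r / ((r.factorial : ℝ) * 2 ^ (m - k)) ≤
      r * Real.log r + r * Real.log (Real.log r) + 83 * r := by
  classical
  have hr3 : (3 : ℝ) ≤ r := by exact_mod_cast hr
  have hr0 : (0 : ℝ) < r := by linarith
  set x : ℝ := Real.log r with hx
  have hx1 : 1 < x := lt_of_lt_of_le log3_gt (Real.log_le_log (by norm_num) hr3)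
  set L : ℕ := ⌈x⌉₊ with hL
  have hxL : x ≤ (L : ℝ) := Nat.le_ceil x
  have hLx : (L : ℝ) < x + 1 := Nat.ceil_lt_add_one (by linarith)
  have hL2 : 2 ≤ L := by
    have : (1 : ℝ) < L := lt_of_lt_of_le hx1 hxL
    have : 1 < L := by exact_mod_cast this
    omega
  set M : ℕ := r ^ 2 * L with hM
  have hM2r : 2 * r ≤ M := by
    rw [hM]
    nlinarith
  have hMr : r ≤ M := by omega
  -- lower bound at M
  have hcM := choose_lower M r hM2r (by omega)
  have hbase : (M : ℝ) / (2 * r) = r * L / 2 := by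
    rw [hM]
    push_cast
    field_simp
  rw [hbase] at hcM
  have hL2' : (2 : ℝ) ≤ L := by exact_mod_cast hL2
  have hbase3 : (3 : ℝ) ≤ r * L / 2 := by nlinarith
  have hcM27 : (27 : ℝ) ≤ (M.choose r : ℝ) := by
    refine le_trans ?_ hcM
    calc (27 : ℝ) = 3 ^ 3 := by norm_num
      _ ≤ 3 ^ r := pow_le_pow_right₀ (by norm_num) hr
      _ ≤ (r * L / 2) ^ r := pow_le_pow_left₀ (by norm_num) hbase3 r
  have he27 : Real.exp 1 < 27 := by
    have := Real.exp_one_lt_d9
    linarith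
  have hlogM : 1 < Real.log (M.choose r : ℝ) :=
    (Real.lt_log_iff_exp_lt (by linarith)).2 (by linarith)
  -- choose s
  have hex : ∃ s : ℕ, (M.choose r : ℝ) < 2 ^ s * Real.log (M.choose r : ℝ) := by
    obtain ⟨s, hs⟩ := pow_unbounded_of_one_lt (M.choose r : ℝ) (by norm_num : (1 : ℝ) < 2)
    refine ⟨s, lt_of_lt_of_le hs ?_⟩
    have : (2 : ℝ) ^ s * 1 ≤ 2 ^ s * Real.log (M.choose r : ℝ) :=
      mul_le_mul_of_nonneg_left hlogM.le (by positivity)
    linarith
  set s := Nat.find hex with hs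
  have hs1 : (M.choose r : ℝ) < 2 ^ s * Real.log (M.choose r : ℝ) := Nat.find_spec hex
  have hs0 : s ≠ 0 := by
    intro h0
    rw [h0] at hs1
    have := Real.log_le_sub_one_of_pos (x := (M.choose r : ℝ)) (by linarith)
    simp at hs1
    linarith
  have hs2 : 2 ^ s * Real.log (M.choose r : ℝ) ≤ 2 * (M.choose r : ℝ) := by
    have h1 := Nat.find_min hex (m := s - 1) (by omega)
    push Not at h1
    have h2 : (2 : ℝ) ^ s = 2 * 2 ^ (s - 1) := by
      rw [← pow_succ']
      congr 1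
      omega
    rw [h2]
    linarith
  -- the predicate holds at 2M
  have hP2M : M ≤ 2 * M ∧ 2 ^ s * Real.log ((2 * M).choose r : ℝ) ≤ ((2 * M).choose r : ℝ) := by
    refine ⟨by omega, ?_⟩
    have h1 : ((2 * M).choose r : ℝ) ≤ (M.choose r : ℝ) ^ 4 := by
      have h2 : ((2 * M).choose r : ℝ) ≤ ((2 * M : ℕ) : ℝ) ^ r := by
        exact_mod_cast Nat.choose_le_pow (2 * M) r
      have h3 : ((2 * M : ℕ) : ℝ) ≤ (r * L / 2) ^ 4 := by
        rw [hM]
        push_cast
        have hr2 : (9 : ℝ) ≤ (r : ℝ) ^ 2 := by nlinarith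
        have hL3 : (8 : ℝ) ≤ (L : ℝ) ^ 3 := by
          calc (8 : ℝ) = 2 ^ 3 := by norm_num
            _ ≤ (L : ℝ) ^ 3 := pow_le_pow_left₀ (by norm_num) hL2' 3
        have h4 : (32 : ℝ) ≤ (r : ℝ) ^ 2 * (L : ℝ) ^ 3 := by nlinarith
        have h5 : (0 : ℝ) ≤ (r : ℝ) ^ 2 * L := by positivity
        have h6 := mul_le_mul_of_nonneg_left h4 h5
        nlinarith
      calc ((2 * M).choose r : ℝ) ≤ ((2 * M : ℕ) : ℝ) ^ r := h2
        _ ≤ ((r * L / 2) ^ 4) ^ r := pow_le_pow_left₀ (by positivity) h3 r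
        _ = ((r * L / 2) ^ r) ^ 4 := by rw [← pow_mul, ← pow_mul, Nat.mul_comm 4 r]
        _ ≤ (M.choose r : ℝ) ^ 4 := pow_le_pow_left₀ (by positivity) hcM 4
    have h5 : (0 : ℝ) < ((2 * M).choose r : ℝ) := by
      exact_mod_cast Nat.choose_pos (by omega : r ≤ 2 * M)
    have h6 : Real.log ((2 * M).choose r : ℝ) ≤ 4 * Real.log (M.choose r : ℝ) := by
      have := Real.log_le_log h5 h1
      rw [Real.log_pow] at this
      exact_mod_cast this
    have h7 : (8 : ℝ) * (M.choose r : ℝ) ≤ ((2 * M).choose r : ℝ) := by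
      have h8 : ((2 ^ r * M.choose r : ℕ) : ℝ) ≤ ((2 * M).choose r : ℝ) := by
        exact_mod_cast choose_two M r
      push_cast at h8
      have h9 : (8 : ℝ) ≤ 2 ^ r := by
        calc (8 : ℝ) = 2 ^ 3 := by norm_num
          _ ≤ 2 ^ r := pow_le_pow_right₀ (by norm_num) hr
      have h10 : (8 : ℝ) * (M.choose r : ℝ) ≤ 2 ^ r * (M.choose r : ℝ) :=
        mul_le_mul_of_nonneg_right h9 (by positivity)
      linarith
    have h11 : (2 : ℝ) ^ s * Real.log ((2 * M).choose r : ℝ)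
        ≤ 2 ^ s * (4 * Real.log (M.choose r : ℝ)) := mul_le_mul_of_nonneg_left h6 (by positivity)
    nlinarith
  have hex2 : ∃ m : ℕ, M ≤ m ∧ 2 ^ s * Real.log (m.choose r : ℝ) ≤ (m.choose r : ℝ) :=
    ⟨2 * M, hP2M⟩
  set m := Nat.find hex2 with hm
  obtain ⟨hMm, hPm⟩ := Nat.find_spec hex2
  rw [← hm] at hMm hPm
  have hm2M : m ≤ 2 * M := Nat.find_min' hex2 hP2M
  have hmne : m ≠ M := by
    intro h
    rw [h] at hPm
    linarith
  have hMm1 : M + 1 ≤ m := by omega
  have hnot : (((m - 1).choose r : ℕ) : ℝ) < 2 ^ s * Real.log (((m - 1).choose r : ℕ) : ℝ) := by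
    have h1 := Nat.find_min hex2 (m := m - 1) (by omega)
    push Not at h1
    exact h1 (by omega)
  have hcmM : (M.choose r : ℝ) ≤ (m.choose r : ℝ) := by
    exact_mod_cast Nat.choose_le_choose r hMm
  have hcm27 : (27 : ℝ) ≤ (m.choose r : ℝ) := le_trans hcM27 hcmM
  have hcm0 : (0 : ℝ) < (m.choose r : ℝ) := by linarith
  have hlogm : 1 < Real.log (m.choose r : ℝ) :=
    (Real.lt_log_iff_exp_lt hcm0).2 (by linarith)
  have hc2m : (m.choose r : ℝ) ≤ 2 ^ m := by exact_mod_cast Nat.choose_le_two_pow m r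
  have hsm : s ≤ m := by
    have h1 : (2 : ℝ) ^ s ≤ 2 ^ m := by
      have : (2 : ℝ) ^ s * 1 ≤ 2 ^ s * Real.log (m.choose r : ℝ) :=
        mul_le_mul_of_nonneg_left hlogm.le (by positivity)
      linarith
    exact (pow_le_pow_iff_right₀ (by norm_num : (1 : ℝ) < 2)).1 h1
  refine ⟨m, m - s, Nat.sub_le _ _, by omega, ?_, ?_⟩
  · exact cond_of (by linarith) hsm hc2m hPm
  · have hms : m - (m - s) = s := by omega
    rw [hms]
    have hmr1 : (r : ℝ) < m := by
      have : r < m := by omega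
      exact_mod_cast this
    have hmr0 : (0 : ℝ) < (m : ℝ) - r := by linarith
    have hm0 : (0 : ℝ) < m := by linarith
    -- rho bound
    have hrec : (m.choose r : ℝ) * ((m : ℝ) - r) = m * ((m - 1).choose r : ℕ) := by
      have h1 := Nat.choose_mul_succ_eq (m - 1) r
      have h2 : m - 1 + 1 = m := by omega
      rw [h2] at h1
      have h3 : (((m - 1).choose r : ℕ) : ℝ) * (m : ℝ) = (m.choose r : ℝ) * ((m - r : ℕ) : ℝ) := by
        exact_mod_cast h1
      rw [Nat.cast_sub (by omega)] at h3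
      linarith
    have hc1pos : (0 : ℝ) < (((m - 1).choose r : ℕ) : ℝ) := by
      exact_mod_cast Nat.choose_pos (by omega : r ≤ m - 1)
    have hlog1 : Real.log (((m - 1).choose r : ℕ) : ℝ) ≤ Real.log (m.choose r : ℝ) := by
      apply Real.log_le_log hc1pos
      exact_mod_cast Nat.choose_le_choose r (by omega : m - 1 ≤ m)
    have hrho : (m.choose r : ℝ) / 2 ^ s ≤ m / (m - r) * Real.log (m.choose r : ℝ) := by
      rw [div_le_iff₀ (by positivity)]
      have h1 : (((m - 1).choose r : ℕ) : ℝ) ≤ 2 ^ s * Real.log (m.choose r : ℝ) := by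
        have : (2 : ℝ) ^ s * Real.log (((m - 1).choose r : ℕ) : ℝ)
          ≤ 2 ^ s * Real.log (m.choose r : ℝ) := mul_le_mul_of_nonneg_left hlog1 (by positivity)
        linarith
      have h2 : (m.choose r : ℝ) = m * (((m - 1).choose r : ℕ) : ℝ) / (m - r) := by
        rw [eq_div_iff hmr0.ne']
        exact hrec
      rw [h2]
      have h3 : (m : ℝ) * (((m - 1).choose r : ℕ) : ℝ) / (m - r)
          ≤ m * (2 ^ s * Real.log (m.choose r : ℝ)) / (m - r) := by
        apply div_le_div_of_nonneg_right _ hmr0.le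
        exact mul_le_mul_of_nonneg_left h1 hm0.le
      calc (m : ℝ) * (((m - 1).choose r : ℕ) : ℝ) / (m - r)
          ≤ m * (2 ^ s * Real.log (m.choose r : ℝ)) / (m - r) := h3
        _ = m / (m - r) * Real.log (m.choose r : ℝ) * 2 ^ s := by ring
        _ = m / (m - r) * Real.log (m * (((m - 1).choose r : ℕ) : ℝ) / (m - r)) * 2 ^ s := by
            rw [← h2]
    have hdesc : ((m : ℝ) - r) ^ r ≤ (r.factorial : ℝ) * (m.choose r : ℝ) := by
      have h1 := Nat.pow_sub_le_descFactorial m r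
      rw [Nat.descFactorial_eq_factorial_mul_choose] at h1
      have h2 : (((m + 1 - r : ℕ) : ℝ)) ^ r ≤ (r.factorial : ℝ) * (m.choose r : ℝ) := by
        exact_mod_cast h1
      refine le_trans (pow_le_pow_left₀ hmr0.le ?_ r) h2
      rw [Nat.cast_sub (by omega)]
      push_cast
      linarith
    have hfac : (0 : ℝ) < (r.factorial : ℝ) := by exact_mod_cast Nat.factorial_pos r
    have h1 : (m : ℝ) ^ r / ((r.factorial : ℝ) * 2 ^ s)
        ≤ (m / (m - r)) ^ r * ((m.choose r : ℝ) / 2 ^ s) := by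
      rw [div_pow, div_mul_div_comm, div_le_div_iff₀ (by positivity) (by positivity)]
      have h2 : (m : ℝ) ^ r * (((m : ℝ) - r) ^ r * 2 ^ s)
          ≤ (m : ℝ) ^ r * (((r.factorial : ℝ) * (m.choose r : ℝ)) * 2 ^ s) := by
        apply mul_le_mul_of_nonneg_left _ (by positivity)
        exact mul_le_mul_of_nonneg_right hdesc (by positivity)
      calc (m : ℝ) ^ r * (((m : ℝ) - r) ^ r * 2 ^ s)
          ≤ (m : ℝ) ^ r * (((r.factorial : ℝ) * (m.choose r : ℝ)) * 2 ^ s) := h2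
        _ = (m : ℝ) ^ r * (m.choose r : ℝ) * ((r.factorial : ℝ) * 2 ^ s) := by ring
    have h2 : (m / (m - r)) ^ r * ((m.choose r : ℝ) / 2 ^ s)
        ≤ ((m : ℝ) / (m - r)) ^ (r + 1) * Real.log (m.choose r : ℝ) := by
      rw [pow_succ, mul_assoc]
      exact mul_le_mul_of_nonneg_left hrho (by positivity)
    refine le_trans (le_trans h1 h2) ?_
    have hMc : (M : ℝ) = (r : ℝ) ^ 2 * L := by
      rw [hM]; push_cast; ring
    apply numeric hr (m := (m : ℝ)) (x := x) (L := (L : ℝ)) hx hxL hLx.le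
      (by rw [← hMc]; exact_mod_cast hMm1) (by rw [← hMc]; exact_mod_cast hm2M) hcm0
      (Nat.choose_le_pow_div r m) (by linarith)

/-- for infinitely many lengths there is a linear covering code of density at most
`r log r + r log log r + 84 r` -/
theorem frequently (r : ℕ) (hr : 3 ≤ r) (N : ℕ) :
    ∃ n : ℕ, N ≤ n ∧ ∃ V : Submodule (ZMod 2) (Fin n → ZMod 2),
      (∀ x : Fin n → ZMod 2, ∃ v ∈ V, hammingDist x v ≤ r) ∧
      (Nat.card V : ℝ) * (ballCard n r : ℝ) / 2 ^ n ≤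
        r * Real.log r + r * Real.log (Real.log r) + 84 * r := by
  obtain ⟨m, k, hk, hm1, hq, hT⟩ := params r hr
  have hr0 : (0 : ℝ) < r := by
    have : 0 < r := by omega
    exact_mod_cast this
  have hlim : Tendsto (fun a : ℕ => ((m : ℝ) + r / 2 ^ a) ^ r / ((r.factorial : ℝ) * 2 ^ (m - k)))
      atTop (nhds (((m : ℝ) + 0) ^ r / ((r.factorial : ℝ) * 2 ^ (m - k)))) := by
    apply Tendsto.div_const
    apply Tendsto.pow
    apply Tendsto.const_add
    have h1 : Tendsto (fun a : ℕ => (r : ℝ) * ((1 / 2 : ℝ) ^ a)) atTop (nhds ((r : ℝ) * 0)) :=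
      (tendsto_pow_atTop_nhds_zero_of_lt_one (by norm_num) (by norm_num)).const_mul _
    rw [mul_zero] at h1
    refine h1.congr (fun a => ?_)
    rw [one_div, inv_pow]
    rfl
  rw [add_zero] at hlim
  have hlt : (m : ℝ) ^ r / ((r.factorial : ℝ) * 2 ^ (m - k)) <
      r * Real.log r + r * Real.log (Real.log r) + 84 * r := by linarith
  have hev := hlim.eventually_lt_const hlt
  obtain ⟨a0, ha0⟩ := hev.exists_forall_of_atTop
  set a := max (max a0 1) (max m N) with ha
  have h1 : a0 ≤ a := le_trans (le_max_left _ _) (le_max_left _ _)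
  have h2 : 1 ≤ a := le_trans (le_max_right _ _) (le_max_left _ _)
  have h3 : m ≤ a := le_trans (le_max_left _ _) (le_max_right _ _)
  have h4 : N ≤ a := le_trans (le_max_right _ _) (le_max_right _ _)
  have h5 : a < 2 ^ a := Nat.lt_two_pow_self
  obtain ⟨V, hV1, hV2⟩ := density_bound m r k a (by omega) (by omega) hk hq
  refine ⟨m * 2 ^ a, ?_, V, hV1, le_trans hV2 (ha0 a h1).le⟩
  calc N ≤ 1 * 2 ^ a := by omega
    _ ≤ m * 2 ^ a := Nat.mul_le_mul_right _ hm1

end COV
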